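import Pool.Agent.Q261.FK.Final

/-!
# MP_10800c_mp, Q2

The limit of the equal-sign order parameter above the critical velocity.
-/

set_option autoImplicit false

namespace Pool.Agent.Results.MP_10800c_mp.FastLimit

open Filter Topology Q261.FK

/-- The limit of `S_v(t)` for every `1/√2 < v < 1`. -/
theorem result (v : ℝ) (hv : 1 / Real.sqrt 2 < v) (hv1 : v < 1) :
    Tendsto (order v) atTop (𝓝 (v / 2 + (1 / 4) * (1 - Real.log 2 / 2 + Real.log v +
      Real.sqrt (2 * v ^ 2 - 1) - Real.arctan (Real.sqrt (2 * v ^ 2 - 1))))) := by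
  have h2 : cc < v := hv
  exact order_lim (by linarith [cc_pos]) hv1.le (full_limit h2 hv1)

end Pool.Agent.Results.MP_10800c_mp.FastLimit
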