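import Pool.Agent.Q261.FK.Final

/-!
# MP_10800c_mp, Q1

The limit of the equal-sign order parameter below the critical velocity.
-/

set_option autoImplicit false

namespace Pool.Agent.Results.MP_10800c_mp.SlowLimit

open Filter Topology Q261.FK

/-- For every `0 < v < 1/√2` the limit of `S_v(t)` exists, it is
`v/2 + (1 - √(1-2v²) + log((1+√(1-2v²))/2))/4`, and this is not the value proposed in Q1. -/
theorem result (v : ℝ) (hv : 0 < v) (hv1 : v < 1 / Real.sqrt 2) :
    Tendsto (order v) atTop (𝓝 (v / 2 + (1 / 4) * (1 - Real.sqrt (1 - 2 * v ^ 2) +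
      Real.log ((1 + Real.sqrt (1 - 2 * v ^ 2)) / 2)))) ∧
    v / 2 + (1 / 4) * (1 - Real.sqrt (1 - 2 * v ^ 2) +
      Real.log ((1 + Real.sqrt (1 - 2 * v ^ 2)) / 2)) ≠
    1 / 2 * (1 + v - Real.sqrt (1 - v ^ 2) + Real.log ((1 + Real.sqrt (1 - v ^ 2)) / 2)) := by
  have h1 : 2 * v ^ 2 < 1 := by
    have h2 : v < cc := hv1
    have h3 := cc_sq
    have h4 := cc_pos
    nlinarith
  refine ⟨order_lim hv.le (by nlinarith) (ell_limit hv.le h1), ?_⟩
  exact (G1_ne_C0 hv h1).ne'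

end Pool.Agent.Results.MP_10800c_mp.SlowLimit
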